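import Pool.Agent.Y758.ZN.H3b

/-!
# Project Z17N: the Hecke operator at `3` on vectors (S_H3)
-/

set_option autoImplicit false

namespace Pool.Agent.Y758.ZN

open Finset Matrix
open Pool.Agent.Z700 Pool.Agent.Z700.SGw Pool.Agent.Y17.N

/-! ### the four classes -/

/-- the part of the sum on the class of `E i` -/
theorem sum_cl (i : Fin 4) (n : ℤ) (β : ZMod 7) (f : V3 → ℤ) (c : ℤ)
    (hf : ∀ v ∈ vec n, f (Wm (E i) v) = c * f v) :
    ∑ w ∈ (Pool.Agent.Z700.vec (9 * n)).filter (fun w => Ln n0 (3 * β) w ∧ Cl (E i) w), f w =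
      c * ∑ v ∈ (vec n).filter (fun v => Ln (Rn (E i)) β v ∧ ¬ 3 ∣ dE (E i) v), f v := by
  rw [Finset.mul_sum]
  refine (Finset.sum_nbij' (fun v => Wm (E i) v) (fun w => Wi (E i) w) ?_ ?_ ?_ ?_ ?_).symm
  · intro v hv
    rw [Finset.mem_filter] at hv ⊢
    refine ⟨?_, (Ln_Wm i β v).2 hv.2.1, (Cl_Wm i v).2 hv.2.2⟩
    rw [mem_vec, nrm_Wm, mem_vec.1 hv.1]
  · intro w hw
    rw [Finset.mem_filter] at hw ⊢
    have h1 := Wm_Wi i n w (mem_vec.1 hw.1) hw.2.2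
    have h2 : Wm (E i) (Wi (E i) w) ⬝ᵥ Wm (E i) (Wi (E i) w) = 9 * n := by
      rw [h1]; exact mem_vec.1 hw.1
    rw [nrm_Wm] at h2
    refine ⟨?_, ?_, ?_⟩
    · rw [mem_vec]; omega
    · rw [← Ln_Wm, h1]; exact hw.2.1
    · rw [← Cl_Wm, h1]; exact hw.2.2
  · intro v _
    exact Wi_Wm i v
  · intro w hw
    rw [Finset.mem_filter] at hw
    exact Wm_Wi i n w (mem_vec.1 hw.1) hw.2.2
  · intro v hv
    rw [Finset.mem_filter] at hv
    exact (hf v hv.1).symm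

/-- all coordinates divisible by `3` -/
def T3 (w : V3) : Prop := w 0 % 3 = 0 ∧ w 1 % 3 = 0 ∧ w 2 % 3 = 0

instance (w : V3) : Decidable (T3 w) := by unfold T3; infer_instance

/-- three times a vector -/
def Tm (v : V3) : V3 := ![3 * v 0, 3 * v 1, 3 * v 2]

/-- a third of a vector -/
def Ti (v : V3) : V3 := ![v 0 / 3, v 1 / 3, v 2 / 3]

theorem Ln_Tm (β : ZMod 7) (v : V3) : Ln n0 (3 * β) (Tm v) ↔ Ln n0 β v := by
  rw [Ln_iff, Ln_iff]
  unfold Tm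
  simp only [Matrix.cons_val_zero, Matrix.cons_val_one, Matrix.cons_val]
  push_cast
  unfold LL
  generalize n0 0 = a
  generalize n0 1 = b
  generalize n0 2 = c
  have h3 : ∀ x y : ZMod 7, 3 * x = 3 * y ↔ x = y := by decide
  have e1 : 3 * (v 1 : ZMod 7) * c - 3 * (v 2 : ZMod 7) * b = 3 * ((v 1 : ZMod 7) * c - (v 2 : ZMod 7) * b) := by ring
  have e2 : 3 * (v 2 : ZMod 7) * a - 3 * (v 0 : ZMod 7) * c = 3 * ((v 2 : ZMod 7) * a - (v 0 : ZMod 7) * c) := by ring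
  have e3 : 3 * (v 0 : ZMod 7) * b - 3 * (v 1 : ZMod 7) * a = 3 * ((v 0 : ZMod 7) * b - (v 1 : ZMod 7) * a) := by ring
  rw [e1, e2, e3, mul_assoc 3 β a, mul_assoc 3 β b, mul_assoc 3 β c, h3, h3, h3]

theorem sum_t3 (n : ℤ) (β : ZMod 7) (f : V3 → ℤ) (c : ℤ)
    (hf : ∀ v ∈ vec n, f (Tm v) = c * f v) :
    ∑ w ∈ (Pool.Agent.Z700.vec (9 * n)).filter (fun w => Ln n0 (3 * β) w ∧ T3 w), f w =
      c * ∑ v ∈ (vec n).filter (fun v => Ln n0 β v), f v := by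
  have hTi : ∀ w : V3, T3 w → Tm (Ti w) = w := by
    intro w hw
    obtain ⟨h0, h1, h2⟩ := hw
    ext j
    fin_cases j
    · show 3 * (w 0 / 3) = w 0; omega
    · show 3 * (w 1 / 3) = w 1; omega
    · show 3 * (w 2 / 3) = w 2; omega
  have hnm : ∀ v : V3, Tm v ⬝ᵥ Tm v = 9 * (v ⬝ᵥ v) := by
    intro v
    rw [dot3, dot3]
    show 3 * v 0 * (3 * v 0) + 3 * v 1 * (3 * v 1) + 3 * v 2 * (3 * v 2) = _
    ring
  rw [Finset.mul_sum]
  refine (Finset.sum_nbij' (fun v => Tm v) (fun w => Ti w) ?_ ?_ ?_ ?_ ?_).symm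
  · intro v hv
    rw [Finset.mem_filter] at hv ⊢
    refine ⟨?_, (Ln_Tm β v).2 hv.2, ?_⟩
    · rw [mem_vec, hnm, mem_vec.1 hv.1]
    · refine ⟨?_, ?_, ?_⟩
      · show (3 * v 0) % 3 = 0; omega
      · show (3 * v 1) % 3 = 0; omega
      · show (3 * v 2) % 3 = 0; omega
  · intro w hw
    rw [Finset.mem_filter] at hw ⊢
    have h1 := hTi w hw.2.2
    have h2 : Tm (Ti w) ⬝ᵥ Tm (Ti w) = 9 * n := by
      rw [h1]; exact mem_vec.1 hw.1
    rw [hnm] at h2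
    refine ⟨?_, ?_⟩
    · rw [mem_vec]; omega
    · rw [← Ln_Tm, h1]; exact hw.2.1
  · intro v _
    ext j
    fin_cases j
    · show 3 * v 0 / 3 = v 0; omega
    · show 3 * v 1 / 3 = v 1; omega
    · show 3 * v 2 / 3 = v 2; omega
  · intro w hw
    rw [Finset.mem_filter] at hw
    exact hTi w hw.2.2
  · intro v hv
    rw [Finset.mem_filter] at hv
    exact (hf v hv.1).symm

/-- the classes of a vector of norm divisible by `3` -/
theorem cls (w : V3) (h : (w 0 * w 0 + w 1 * w 1 + w 2 * w 2) % 3 = 0) :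
    (if T3 w then (1 : ℤ) else 0) + ∑ i, (if Cl (E i) w then (1 : ℤ) else 0) = 1 := by
  rw [Fin.sum_univ_four]
  unfold T3 Cl
  simp only [show E 0 0 = 1 from rfl, show E 0 1 = 1 from rfl, show E 0 2 = 1 from rfl,
    show E 1 0 = 1 from rfl, show E 1 1 = 1 from rfl, show E 1 2 = -1 from rfl,
    show E 2 0 = 1 from rfl, show E 2 1 = -1 from rfl, show E 2 2 = 1 from rfl,
    show E 3 0 = -1 from rfl, show E 3 1 = 1 from rfl, show E 3 2 = 1 from rfl]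
  have k : ∀ t : ℤ, (t % 3 = 0 ∧ t * t % 3 = 0 ∧ (t - 1) % 3 = 2 ∧ (t + 1) % 3 = 1 ∧
      (t - -1) % 3 = 1 ∧ (t + -1) % 3 = 2) ∨
      (t % 3 = 1 ∧ t * t % 3 = 1 ∧ (t - 1) % 3 = 0 ∧ (t + 1) % 3 = 2 ∧
      (t - -1) % 3 = 2 ∧ (t + -1) % 3 = 0) ∨
      (t % 3 = 2 ∧ t * t % 3 = 1 ∧ (t - 1) % 3 = 1 ∧ (t + 1) % 3 = 0 ∧
      (t - -1) % 3 = 0 ∧ (t + -1) % 3 = 1) := by
    intro t
    have : t % 3 = 0 ∨ t % 3 = 1 ∨ t % 3 = 2 := by omega
    rcases this with h | h | h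
    · left; refine ⟨h, ?_, by omega, by omega, by omega, by omega⟩; rw [Int.mul_emod, h]; rfl
    · right; left; refine ⟨h, ?_, by omega, by omega, by omega, by omega⟩
      rw [Int.mul_emod, h]; rfl
    · right; right; refine ⟨h, ?_, by omega, by omega, by omega, by omega⟩
      rw [Int.mul_emod, h]; rfl
  rcases k (w 0) with ⟨hx, hx2, hx3, hx4, hx5, hx6⟩ | ⟨hx, hx2, hx3, hx4, hx5, hx6⟩ |
      ⟨hx, hx2, hx3, hx4, hx5, hx6⟩ <;>
    rcases k (w 1) with ⟨hy, hy2, hy3, hy4, hy5, hy6⟩ | ⟨hy, hy2, hy3, hy4, hy5, hy6⟩ |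
      ⟨hy, hy2, hy3, hy4, hy5, hy6⟩ <;>
    rcases k (w 2) with ⟨hz, hz2, hz3, hz4, hz5, hz6⟩ | ⟨hz, hz2, hz3, hz4, hz5, hz6⟩ |
      ⟨hz, hz2, hz3, hz4, hz5, hz6⟩ <;>
    first
    | (exfalso; omega)
    | (simp only [hx, hy, hz, hx3, hx4, hx5, hx6, hy3, hy4, hy5, hy6, hz3, hz4, hz5, hz6]
       simp)

/-- the involution: the vectors of the line `Rn (E i)` with `3 ∣ dE` -/
theorem sum_Rm (i : Fin 4) (n : ℤ) (β : ZMod 7) (f : V3 → ℤ)
    (hf : ∀ v ∈ vec n, 3 ∣ dE (E i) v → f (Rm (E i) v) = f v) :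
    ∑ v ∈ (vec n).filter (fun v => Ln (Rn (E i)) β v ∧ 3 ∣ dE (E i) v), f v =
      ∑ v ∈ (vec n).filter (fun v => Ln n0 β v ∧ 3 ∣ dE (E i) v), f v := by
  refine Finset.sum_nbij' (fun v => Rm (E i) v) (fun v => Rm (E i) v) ?_ ?_ ?_ ?_ ?_
  · intro v hv
    rw [Finset.mem_filter] at hv ⊢
    obtain ⟨h1, h2, h3⟩ := hv
    refine ⟨?_, (Ln_Rm i β v h3).2 h2, ?_⟩
    · rw [mem_vec, nrm_Rm i v h3]; exact mem_vec.1 h1
    · rw [dE_Rm i v h3]; exact h3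
  · intro v hv
    rw [Finset.mem_filter] at hv ⊢
    obtain ⟨h1, h2, h3⟩ := hv
    have h4 : 3 ∣ dE (E i) (Rm (E i) v) := by rw [dE_Rm i v h3]; exact h3
    refine ⟨?_, ?_, h4⟩
    · rw [mem_vec, nrm_Rm i v h3]; exact mem_vec.1 h1
    · rw [← Ln_Rm i β _ h4, Rm_Rm i v h3]; exact h2
  · intro v hv
    rw [Finset.mem_filter] at hv
    exact Rm_Rm i v hv.2.2
  · intro v hv
    rw [Finset.mem_filter] at hv
    exact Rm_Rm i v hv.2.2
  · intro v hv
    rw [Finset.mem_filter] at hv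
    exact (hf v hv.1 hv.2.2).symm

/-- the number of `e` with `3 ∣ e.u` -/
theorem cnt (n : ℕ) (hn : ¬ 9 ∣ n) (u : V3) (hu : u 0 * u 0 + u 1 * u 1 + u 2 * u 2 = (n : ℤ)) :
    ∑ i, (if 3 ∣ dE (E i) u then (1 : ℤ) else 0) = 1 + jacobiSym (-(n : ℤ)) 3 := by
  have hJ : jacobiSym (-(n : ℤ)) 3 = if (n : ℤ) % 3 = 0 then 0 else if (n : ℤ) % 3 = 1 then -1 else 1 := by
    rw [jacobiSym.mod_left]
    have : (n : ℤ) % 3 = 0 ∨ (n : ℤ) % 3 = 1 ∨ (n : ℤ) % 3 = 2 := by omega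
    rcases this with h | h | h
    · have : (-(n : ℤ)) % ((3 : ℕ) : ℤ) = 0 := by push_cast; omega
      rw [this, h]; decide +kernel
    · have : (-(n : ℤ)) % ((3 : ℕ) : ℤ) = 2 := by push_cast; omega
      rw [this, h]; decide +kernel
    · have : (-(n : ℤ)) % ((3 : ℕ) : ℤ) = 1 := by push_cast; omega
      rw [this, h]; decide +kernel
  rw [hJ, Fin.sum_univ_four]
  unfold dE
  simp only [show E 0 0 = 1 from rfl, show E 0 1 = 1 from rfl, show E 0 2 = 1 from rfl,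
    show E 1 0 = 1 from rfl, show E 1 1 = 1 from rfl, show E 1 2 = -1 from rfl,
    show E 2 0 = 1 from rfl, show E 2 1 = -1 from rfl, show E 2 2 = 1 from rfl,
    show E 3 0 = -1 from rfl, show E 3 1 = 1 from rfl, show E 3 2 = 1 from rfl]
  have hn9 : (n : ℤ) % 9 ≠ 0 := by omega
  rw [← hu] at hn9 ⊢
  generalize u 0 = x at *
  generalize u 1 = y at *
  generalize u 2 = z at *
  have k : ∀ t : ℤ, (t % 3 = 0 ∧ t * t % 9 = 0) ∨ (t % 3 = 1 ∧ t * t % 3 = 1) ∨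
      (t % 3 = 2 ∧ t * t % 3 = 1) := by
    intro t
    have : t % 3 = 0 ∨ t % 3 = 1 ∨ t % 3 = 2 := by omega
    rcases this with h | h | h
    · left; refine ⟨h, ?_⟩
      obtain ⟨s, rfl⟩ : ∃ s, t = 3 * s := ⟨t / 3, by omega⟩
      rw [show 3 * s * (3 * s) = 9 * (s * s) by ring]; omega
    · right; left; refine ⟨h, ?_⟩; rw [Int.mul_emod, h]; rfl
    · right; right; refine ⟨h, ?_⟩; rw [Int.mul_emod, h]; rfl
  have d1 : ∀ t : ℤ, ((3 : ℤ) ∣ t) = (t % 3 = 0) := fun t => propext ⟨fun h => by omega, fun h => by omega⟩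
  simp only [d1]
  have m1 : (1 * x + 1 * y + 1 * z) % 3 = (x % 3 + y % 3 + z % 3) % 3 := by omega
  have m2 : (1 * x + 1 * y + -1 * z) % 3 = (x % 3 + y % 3 + 2 * (z % 3)) % 3 := by omega
  have m3 : (1 * x + -1 * y + 1 * z) % 3 = (x % 3 + 2 * (y % 3) + z % 3) % 3 := by omega
  have m4 : (-1 * x + 1 * y + 1 * z) % 3 = (2 * (x % 3) + y % 3 + z % 3) % 3 := by omega
  have m5 : (x * x + y * y + z * z) % 3 = ((x * x) % 3 + (y * y) % 3 + (z * z) % 3) % 3 := by omega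
  rw [m1, m2, m3, m4, m5]
  rcases k x with ⟨hx, hx2⟩ | ⟨hx, hx2⟩ | ⟨hx, hx2⟩ <;>
    rcases k y with ⟨hy, hy2⟩ | ⟨hy, hy2⟩ | ⟨hy, hy2⟩ <;>
    rcases k z with ⟨hz, hz2⟩ | ⟨hz, hz2⟩ | ⟨hz, hz2⟩ <;>
    first
    | (exfalso; omega)
    | (have q1 : x * x % 3 = x % 3 * (x % 3) % 3 := Int.mul_emod _ _ _
       have q2 : y * y % 3 = y % 3 * (y % 3) % 3 := Int.mul_emod _ _ _
       have q3 : z * z % 3 = z % 3 * (z % 3) % 3 := Int.mul_emod _ _ _
       rw [q1, q2, q3, hx, hy, hz]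
       decide)

/-- the general identity -/
theorem main (n : ℕ) (h8 : n % 8 = 3) (hn : ¬ 9 ∣ n) (β : ZMod 7) (f : V3 → ℤ) (c : ℤ)
    (hW : ∀ i, ∀ v ∈ vec (n : ℤ), f (Wm (E i) v) = c * f v)
    (hT : ∀ v ∈ vec (n : ℤ), f (Tm v) = c * f v)
    (hR : ∀ i, ∀ v ∈ vec (n : ℤ), 3 ∣ dE (E i) v → f (Rm (E i) v) = f v) :
    ∑ w ∈ (Pool.Agent.Z700.vec (9 * (n : ℤ))).filter (fun w => Ln n0 (3 * β) w), f w =
      c * (∑ v ∈ (vec (n : ℤ)).filter (fun v => Ln n0 β v), f v +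
        ∑ i, ∑ v ∈ (vec (n : ℤ)).filter (fun v => Ln (Rn (E i)) β v), f v -
        (1 + jacobiSym (-(n : ℤ)) 3) * ∑ v ∈ (vec (n : ℤ)).filter (fun v => Ln n0 β v), f v) := by
  have s1 : ∑ w ∈ (Pool.Agent.Z700.vec (9 * (n : ℤ))).filter (fun w => Ln n0 (3 * β) w), f w =
      ∑ w ∈ (Pool.Agent.Z700.vec (9 * (n : ℤ))).filter (fun w => Ln n0 (3 * β) w ∧ T3 w), f w +
      ∑ i, ∑ w ∈ (Pool.Agent.Z700.vec (9 * (n : ℤ))).filter
        (fun w => Ln n0 (3 * β) w ∧ Cl (E i) w), f w := by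
    have a1 : ∑ w ∈ (Pool.Agent.Z700.vec (9 * (n : ℤ))).filter
        (fun w => Ln n0 (3 * β) w ∧ T3 w), f w =
        ∑ w ∈ (Pool.Agent.Z700.vec (9 * (n : ℤ))).filter (fun w => Ln n0 (3 * β) w),
          f w * (if T3 w then (1 : ℤ) else 0) := by
      rw [← Finset.filter_filter, Finset.sum_filter]
      refine Finset.sum_congr rfl fun w _ => ?_
      split_ifs <;> simp
    have a2 : ∀ i, ∑ w ∈ (Pool.Agent.Z700.vec (9 * (n : ℤ))).filter
        (fun w => Ln n0 (3 * β) w ∧ Cl (E i) w), f w =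
        ∑ w ∈ (Pool.Agent.Z700.vec (9 * (n : ℤ))).filter (fun w => Ln n0 (3 * β) w),
          f w * (if Cl (E i) w then (1 : ℤ) else 0) := by
      intro i
      rw [← Finset.filter_filter, Finset.sum_filter]
      refine Finset.sum_congr rfl fun w _ => ?_
      split_ifs <;> simp
    rw [a1, Finset.sum_congr rfl fun i _ => a2 i, Finset.sum_comm, ← Finset.sum_add_distrib]
    refine Finset.sum_congr rfl fun w hw => ?_
    rw [← Finset.mul_sum, ← mul_add, cls, mul_one]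
    have h1 := mem_vec.1 (Finset.mem_filter.1 hw).1
    rw [dot3] at h1
    rw [h1]; omega
  have s2 : ∀ i, ∑ v ∈ (vec (n : ℤ)).filter (fun v => Ln (Rn (E i)) β v ∧ ¬ 3 ∣ dE (E i) v), f v =
      ∑ v ∈ (vec (n : ℤ)).filter (fun v => Ln (Rn (E i)) β v), f v -
      ∑ v ∈ (vec (n : ℤ)).filter (fun v => Ln n0 β v ∧ 3 ∣ dE (E i) v), f v := by
    intro i
    rw [← sum_Rm i (n : ℤ) β f (hR i), ← Finset.filter_filter, ← Finset.filter_filter,
      ← Finset.sum_filter_add_sum_filter_not ((vec (n : ℤ)).filter (fun v => Ln (Rn (E i)) β v))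
        (fun v => 3 ∣ dE (E i) v) f]
    ring
  have s3 : ∑ i, ∑ v ∈ (vec (n : ℤ)).filter (fun v => Ln n0 β v ∧ 3 ∣ dE (E i) v), f v =
      (1 + jacobiSym (-(n : ℤ)) 3) * ∑ v ∈ (vec (n : ℤ)).filter (fun v => Ln n0 β v), f v := by
    have a2 : ∀ i, ∑ v ∈ (vec (n : ℤ)).filter (fun v => Ln n0 β v ∧ 3 ∣ dE (E i) v), f v =
        ∑ v ∈ (vec (n : ℤ)).filter (fun v => Ln n0 β v),
          f v * (if 3 ∣ dE (E i) v then (1 : ℤ) else 0) := by
      intro i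
      rw [← Finset.filter_filter, Finset.sum_filter]
      refine Finset.sum_congr rfl fun w _ => ?_
      split_ifs <;> simp
    rw [Finset.sum_congr rfl fun i _ => a2 i, Finset.sum_comm, Finset.mul_sum]
    refine Finset.sum_congr rfl fun v hv => ?_
    have h1 := mem_vec.1 (Finset.mem_filter.1 hv).1
    rw [dot3] at h1
    rw [← Finset.mul_sum, cnt n hn v h1, mul_comm]
  rw [s1, sum_t3 (n : ℤ) β f c hT, Finset.sum_congr rfl fun i _ => sum_cl i (n : ℤ) β f c (hW i),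
    ← Finset.mul_sum, Finset.sum_congr rfl fun i _ => s2 i, Finset.sum_sub_distrib, s3]
  ring

/-- the number of vectors on an isotropic line and their orientation -/
theorem ori (h : S_ORI) {N : ℤ} (hN : N % 8 = 3) {β : ZMod 7} (hβ : β ≠ 0) (m : Fin 3 → ZMod 7)
    (h0 : m ≠ 0) (h1 : m 0 ^ 2 + m 1 ^ 2 + m 2 ^ 2 = 0) :
    ∑ _v ∈ (vec N).filter (fun v => Ln m β v), (1 : ℤ) = t0 N β ∧
    ∑ v ∈ (vec N).filter (fun v => Ln m β v), ep v = sgl m * g0 N β := by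
  have e1 := h N hN β hβ m h0 h1 1 (Or.inl rfl)
  have e2 := h N hN β hβ m h0 h1 (-1) (Or.inr rfl)
  have b1 : ∀ f : V3 → ℤ, ∑ v ∈ (vec N).filter (fun v => Ln m β v), f v =
      ∑ v ∈ (vec N).filter (fun v => Ln m β v ∧ ep v = 1), f v +
      ∑ v ∈ (vec N).filter (fun v => Ln m β v ∧ ep v = -1), f v := by
    intro f
    rw [← Finset.sum_filter_add_sum_filter_not ((vec N).filter (fun v => Ln m β v))
      (fun v => ep v = 1) f, Finset.filter_filter, Finset.filter_filter]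
    congr 1
    refine Finset.sum_congr ?_ fun _ _ => rfl
    ext v
    simp only [Finset.mem_filter]
    refine ⟨fun hh => ⟨hh.1, hh.2.1, ?_⟩, fun hh => ⟨hh.1, hh.2.1, ?_⟩⟩
    · rcases ep_cases v with hv | hv
      · exact absurd hv hh.2.2
      · exact hv
    · rw [hh.2.2]; norm_num
  constructor
  · rw [b1, Finset.sum_const, Finset.sum_const, nsmul_eq_mul, nsmul_eq_mul]
    linarith
  · rw [b1]
    have c1 : ∑ v ∈ (vec N).filter (fun v => Ln m β v ∧ ep v = 1), ep v =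
        (((vec N).filter (fun v => Ln m β v ∧ ep v = 1)).card : ℤ) := by
      rw [Finset.sum_congr rfl fun v hv => (Finset.mem_filter.1 hv).2.2, Finset.sum_const,
        nsmul_eq_mul, mul_one]
    have c2 : ∑ v ∈ (vec N).filter (fun v => Ln m β v ∧ ep v = -1), ep v =
        -(((vec N).filter (fun v => Ln m β v ∧ ep v = -1)).card : ℤ) := by
      rw [Finset.sum_congr rfl fun v hv => (Finset.mem_filter.1 hv).2.2, Finset.sum_const,
        nsmul_eq_mul]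
      ring
    rw [c1, c2]
    linarith

theorem t_H3 (h : S_ORI) : S_H3 := by
  intro n h8 hn β hβ
  have hN : (n : ℤ) % 8 = 3 := by omega
  have hod := od_of hN
  have ho : ∀ i, ∑ _v ∈ (vec (n : ℤ)).filter (fun v => Ln (Rn (E i)) β v), (1 : ℤ) = t0 n β ∧
      ∑ v ∈ (vec (n : ℤ)).filter (fun v => Ln (Rn (E i)) β v), ep v = sgl (Rn (E i)) * g0 n β :=
    fun i => ori h hN hβ (Rn (E i)) (Rn_ne i) (Rn_iso i)
  have hc : ((9 * n : ℕ) : ℤ) = 9 * (n : ℤ) := by push_cast; ring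
  constructor
  · have m := main n h8 hn β (fun _ => 1) 1 (fun _ _ _ => by norm_num) (fun _ _ => by norm_num)
      (fun _ _ _ _ => rfl)
    rw [Finset.sum_congr rfl fun i _ => (ho i).1] at m
    unfold t0 at m ⊢
    rw [hc]
    simp only [Finset.sum_const, nsmul_eq_mul, mul_one, Finset.card_univ, Fintype.card_fin] at m
    rw [m]
    push_cast
    ring
  · have m := main n h8 hn β ep (-1)
      (fun i v hv => by
        obtain ⟨a0, a1, a2⟩ := hod v hv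
        rw [ep_Wm i v a0 a1 a2]; ring)
      (fun v hv => by
        obtain ⟨a0, a1, a2⟩ := hod v hv
        rw [ep_congr_neg (v := v) (w := Tm v) _ _ _ a0 a1 a2]
        · ring
        · show (3 * v 0 + v 0) % 4 = 0; omega
        · show (3 * v 1 + v 1) % 4 = 0; omega
        · show (3 * v 2 + v 2) % 4 = 0; omega)
      (fun i v hv h3 => by
        obtain ⟨a0, a1, a2⟩ := hod v hv
        exact ep_Rm i v a0 a1 a2 h3)
    rw [Finset.sum_congr rfl fun i _ => (ho i).2, ← Finset.sum_mul, Rn_sgl] at m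
    rw [hc]
    unfold g0 at m ⊢
    rw [m]
    ring

end Pool.Agent.Y758.ZN
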