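import Pool.Agent.Y17.N.Defs
import Pool.Agent.Z700.SG

/-!
# Project Z17N: the Hecke operator at `3` on vectors (S_H3)
-/

set_option autoImplicit false

namespace Pool.Agent.Y758.ZN

open Finset Matrix
open Pool.Agent.Z700 Pool.Agent.Z700.SGw Pool.Agent.Y17.N

/-- the four vectors -/
def E : Fin 4 → V3 := ![![1, 1, 1], ![1, 1, -1], ![1, -1, 1], ![-1, 1, 1]]

theorem E_cases (i : Fin 4) (j : Fin 3) : E i j = 1 ∨ E i j = -1 := by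
  revert i j; decide

/-- inner product -/
def dE (e v : V3) : ℤ := e 0 * v 0 + e 1 * v 1 + e 2 * v 2

/-- `3 R_e v` -/
def Wm (e v : V3) : V3 := ![2 * dE e v * e 0 - 3 * v 0, 2 * dE e v * e 1 - 3 * v 1,
  2 * dE e v * e 2 - 3 * v 2]

/-- `R_e w / 3` -/
def Wi (e w : V3) : V3 := ![(2 * dE e w * e 0 - 3 * w 0) / 9, (2 * dE e w * e 1 - 3 * w 1) / 9,
  (2 * dE e w * e 2 - 3 * w 2) / 9]

/-- `R_e u` -/
def Rm (e u : V3) : V3 := ![2 * (dE e u / 3) * e 0 - u 0, 2 * (dE e u / 3) * e 1 - u 1,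
  2 * (dE e u / 3) * e 2 - u 2]

/-- `w = ± e mod 3` -/
def Cl (e w : V3) : Prop := ((w 0 - e 0) % 3 = 0 ∧ (w 1 - e 1) % 3 = 0 ∧ (w 2 - e 2) % 3 = 0) ∨
  ((w 0 + e 0) % 3 = 0 ∧ (w 1 + e 1) % 3 = 0 ∧ (w 2 + e 2) % 3 = 0)

instance (e w : V3) : Decidable (Cl e w) := by unfold Cl; infer_instance

/-- `R_e n0` -/
def Rn (e : V3) : Fin 3 → ZMod 7 :=
  ![3 * ((e 0 : ZMod 7) * 1 + (e 1 : ZMod 7) * 2 + (e 2 : ZMod 7) * 3) * (e 0 : ZMod 7) - 1,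
    3 * ((e 0 : ZMod 7) * 1 + (e 1 : ZMod 7) * 2 + (e 2 : ZMod 7) * 3) * (e 1 : ZMod 7) - 2,
    3 * ((e 0 : ZMod 7) * 1 + (e 1 : ZMod 7) * 2 + (e 2 : ZMod 7) * 3) * (e 2 : ZMod 7) - 3]

theorem Rn_ne (i : Fin 4) : Rn (E i) ≠ 0 := by revert i; decide

theorem Rn_iso (i : Fin 4) : Rn (E i) 0 ^ 2 + Rn (E i) 1 ^ 2 + Rn (E i) 2 ^ 2 = 0 := by
  revert i; decide

theorem Rn_sgl : ∑ i, sgl (Rn (E i)) = -2 := by decide +kernel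

/-- the condition `Ln` in scalar form -/
def LL (n0 n1 n2 β x y z : ZMod 7) : Prop :=
  y * n2 - z * n1 = β * n0 ∧ z * n0 - x * n2 = β * n1 ∧ x * n1 - y * n0 = β * n2

instance (n0 n1 n2 β x y z : ZMod 7) : Decidable (LL n0 n1 n2 β x y z) := by
  unfold LL; infer_instance

theorem Ln_iff (n : Fin 3 → ZMod 7) (β : ZMod 7) (v : V3) :
    Ln n β v ↔ LL (n 0) (n 1) (n 2) β (v 0 : ZMod 7) (v 1 : ZMod 7) (v 2 : ZMod 7) := Iff.rfl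

theorem L1 : ∀ i : Fin 4, ∀ x y z β : ZMod 7,
    LL 1 2 3 (3 * β)
      (2 * ((E i 0 : ZMod 7) * x + (E i 1 : ZMod 7) * y + (E i 2 : ZMod 7) * z) * (E i 0 : ZMod 7) - 3 * x)
      (2 * ((E i 0 : ZMod 7) * x + (E i 1 : ZMod 7) * y + (E i 2 : ZMod 7) * z) * (E i 1 : ZMod 7) - 3 * y)
      (2 * ((E i 0 : ZMod 7) * x + (E i 1 : ZMod 7) * y + (E i 2 : ZMod 7) * z) * (E i 2 : ZMod 7) - 3 * z) ↔
    LL (Rn (E i) 0) (Rn (E i) 1) (Rn (E i) 2) β x y z := by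
  decide +kernel

theorem L2 : ∀ i : Fin 4, ∀ x y z β : ZMod 7,
    LL 1 2 3 β
      (3 * ((E i 0 : ZMod 7) * x + (E i 1 : ZMod 7) * y + (E i 2 : ZMod 7) * z) * (E i 0 : ZMod 7) - x)
      (3 * ((E i 0 : ZMod 7) * x + (E i 1 : ZMod 7) * y + (E i 2 : ZMod 7) * z) * (E i 1 : ZMod 7) - y)
      (3 * ((E i 0 : ZMod 7) * x + (E i 1 : ZMod 7) * y + (E i 2 : ZMod 7) * z) * (E i 2 : ZMod 7) - z) ↔
    LL (Rn (E i) 0) (Rn (E i) 1) (Rn (E i) 2) β x y z := by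
  decide +kernel

theorem Ln_Wm (i : Fin 4) (β : ZMod 7) (v : V3) :
    Ln n0 (3 * β) (Wm (E i) v) ↔ Ln (Rn (E i)) β v := by
  rw [Ln_iff, Ln_iff, ← L1]
  unfold Wm dE n0
  simp only [Matrix.cons_val_zero, Matrix.cons_val_one, Matrix.cons_val]
  push_cast
  rfl

theorem Ln_Rm (i : Fin 4) (β : ZMod 7) (v : V3) (h : 3 ∣ dE (E i) v) :
    Ln n0 β (Rm (E i) v) ↔ Ln (Rn (E i)) β v := by
  obtain ⟨k, hk⟩ := h
  have h1 : dE (E i) v / 3 = k := by omega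
  have h2 : (2 : ZMod 7) * (k : ZMod 7) = 3 * ((E i 0 : ZMod 7) * (v 0 : ZMod 7) +
      (E i 1 : ZMod 7) * (v 1 : ZMod 7) + (E i 2 : ZMod 7) * (v 2 : ZMod 7)) := by
    have h3 : ((dE (E i) v : ℤ) : ZMod 7) = ((3 * k : ℤ) : ZMod 7) := by rw [hk]
    unfold dE at h3
    push_cast at h3
    rw [h3]
    have h7 : (7 : ZMod 7) = 0 := by decide
    linear_combination (-(k : ZMod 7)) * h7
  rw [Ln_iff, Ln_iff, ← L2]
  unfold Rm n0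
  rw [h1]
  simp only [Matrix.cons_val_zero, Matrix.cons_val_one, Matrix.cons_val]
  push_cast
  rw [h2]

end Pool.Agent.Y758.ZN
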