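import Pool.Agent.Y758.ZN.H3a

/-!
# Project Z17N: the Hecke operator at `3` on vectors (S_H3)
-/

set_option autoImplicit false

namespace Pool.Agent.Y758.ZN

open Finset Matrix
open Pool.Agent.Z700 Pool.Agent.Z700.SGw Pool.Agent.Y17.N

/-! ### scalar lemmas -/

/-- squares of the signs -/
theorem sq_one {a : ℤ} (h : a = 1 ∨ a = -1) : a * a = 1 := by
  rcases h with rfl | rfl <;> norm_num

theorem nrm_Wm (i : Fin 4) (v : V3) : Wm (E i) v ⬝ᵥ Wm (E i) v = 9 * (v ⬝ᵥ v) := by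
  have h0 := sq_one (E_cases i 0)
  have h1 := sq_one (E_cases i 1)
  have h2 := sq_one (E_cases i 2)
  rw [dot3, dot3]
  unfold Wm dE
  simp only [Matrix.cons_val_zero, Matrix.cons_val_one, Matrix.cons_val]
  generalize E i 0 = a at *
  generalize E i 1 = b at *
  generalize E i 2 = c at *
  linear_combination (4 * (a * v 0 + b * v 1 + c * v 2) ^ 2) * (h0 + h1 + h2)

theorem dE_Wm (i : Fin 4) (v : V3) : dE (E i) (Wm (E i) v) = 3 * dE (E i) v := by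
  have h0 := sq_one (E_cases i 0)
  have h1 := sq_one (E_cases i 1)
  have h2 := sq_one (E_cases i 2)
  unfold Wm dE
  simp only [Matrix.cons_val_zero, Matrix.cons_val_one, Matrix.cons_val]
  linear_combination (2 * (E i 0 * v 0 + E i 1 * v 1 + E i 2 * v 2)) * (h0 + h1 + h2)

theorem Wi_Wm (i : Fin 4) (v : V3) : Wi (E i) (Wm (E i) v) = v := by
  have h := dE_Wm i v
  unfold Wi
  rw [h]
  have hW0 : Wm (E i) v 0 = 2 * dE (E i) v * E i 0 - 3 * v 0 := rfl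
  have hW1 : Wm (E i) v 1 = 2 * dE (E i) v * E i 1 - 3 * v 1 := rfl
  have hW2 : Wm (E i) v 2 = 2 * dE (E i) v * E i 2 - 3 * v 2 := rfl
  rw [hW0, hW1, hW2]
  ext j
  fin_cases j
  · show (2 * (3 * dE (E i) v) * E i 0 - 3 * (2 * dE (E i) v * E i 0 - 3 * v 0)) / 9 = v 0
    rw [show 2 * (3 * dE (E i) v) * E i 0 - 3 * (2 * dE (E i) v * E i 0 - 3 * v 0) = 9 * v 0 by ring]
    omega
  · show (2 * (3 * dE (E i) v) * E i 1 - 3 * (2 * dE (E i) v * E i 1 - 3 * v 1)) / 9 = v 1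
    rw [show 2 * (3 * dE (E i) v) * E i 1 - 3 * (2 * dE (E i) v * E i 1 - 3 * v 1) = 9 * v 1 by ring]
    omega
  · show (2 * (3 * dE (E i) v) * E i 2 - 3 * (2 * dE (E i) v * E i 2 - 3 * v 2)) / 9 = v 2
    rw [show 2 * (3 * dE (E i) v) * E i 2 - 3 * (2 * dE (E i) v * E i 2 - 3 * v 2) = 9 * v 2 by ring]
    omega

theorem div9 (a b c x y z n : ℤ) (ha : a = 1 ∨ a = -1) (hb : b = 1 ∨ b = -1) (hc : c = 1 ∨ c = -1)
    (h : x * x + y * y + z * z = 9 * n)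
    (hcl : ((x - a) % 3 = 0 ∧ (y - b) % 3 = 0 ∧ (z - c) % 3 = 0) ∨
      ((x + a) % 3 = 0 ∧ (y + b) % 3 = 0 ∧ (z + c) % 3 = 0)) :
    (2 * (a * x + b * y + c * z) * a - 3 * x) % 9 = 0 ∧
    (2 * (a * x + b * y + c * z) * b - 3 * y) % 9 = 0 ∧
    (2 * (a * x + b * y + c * z) * c - 3 * z) % 9 = 0 := by
  have key : ∃ s p q r : ℤ, (s = 1 ∨ s = -1) ∧ x = s * a + 3 * p ∧ y = s * b + 3 * q ∧
      z = s * c + 3 * r := by
    rcases hcl with ⟨h1, h2, h3⟩ | ⟨h1, h2, h3⟩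
    · exact ⟨1, (x - a) / 3, (y - b) / 3, (z - c) / 3, Or.inl rfl, by omega, by omega, by omega⟩
    · exact ⟨-1, (x + a) / 3, (y + b) / 3, (z + c) / 3, Or.inr rfl, by omega, by omega, by omega⟩
  obtain ⟨s, p, q, r, hs, rfl, rfl, rfl⟩ := key
  have ha2 := sq_one ha
  have hb2 := sq_one hb
  have hc2 := sq_one hc
  have hs2 := sq_one hs
  -- `1 + 2 s e.z = 0 mod 3`
  obtain ⟨t, ht⟩ : ∃ t : ℤ, a * p + b * q + c * r = t := ⟨_, rfl⟩
  have h4 : 3 + 6 * (s * t) + 9 * (p * p + q * q + r * r) = 9 * n := by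
    rw [← h, ← ht]
    linear_combination (-(a * a + b * b + c * c)) * hs2 - ha2 - hb2 - hc2
  have h5 : (s + 2 * t) % 3 = 0 := by
    rcases hs with rfl | rfl <;> omega
  obtain ⟨k, hk⟩ : ∃ k, s + 2 * t = 3 * k := ⟨(s + 2 * t) / 3, by omega⟩
  have h6 : a * (s * a + 3 * p) + b * (s * b + 3 * q) + c * (s * c + 3 * r) = 3 * s + 3 * t := by
    rw [← ht]
    linear_combination s * ha2 + s * hb2 + s * hc2
  rw [h6]
  refine ⟨?_, ?_, ?_⟩
  · have : 2 * (3 * s + 3 * t) * a - 3 * (s * a + 3 * p) = 9 * (k * a - p) := by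
      linear_combination (3 * a) * hk
    rw [this]; omega
  · have : 2 * (3 * s + 3 * t) * b - 3 * (s * b + 3 * q) = 9 * (k * b - q) := by
      linear_combination (3 * b) * hk
    rw [this]; omega
  · have : 2 * (3 * s + 3 * t) * c - 3 * (s * c + 3 * r) = 9 * (k * c - r) := by
      linear_combination (3 * c) * hk
    rw [this]; omega

theorem Wm_Wi (i : Fin 4) (n : ℤ) (w : V3) (hw : w ⬝ᵥ w = 9 * n) (hcl : Cl (E i) w) :
    Wm (E i) (Wi (E i) w) = w := by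
  rw [dot3] at hw
  obtain ⟨h0, h1, h2⟩ := div9 (E i 0) (E i 1) (E i 2) (w 0) (w 1) (w 2) n (E_cases i 0)
    (E_cases i 1) (E_cases i 2) hw hcl
  have g0 : 9 * Wi (E i) w 0 = 2 * dE (E i) w * E i 0 - 3 * w 0 := by
    show 9 * ((2 * dE (E i) w * E i 0 - 3 * w 0) / 9) = _
    have : (2 * dE (E i) w * E i 0 - 3 * w 0) % 9 = 0 := h0
    omega
  have g1 : 9 * Wi (E i) w 1 = 2 * dE (E i) w * E i 1 - 3 * w 1 := by
    show 9 * ((2 * dE (E i) w * E i 1 - 3 * w 1) / 9) = _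
    have : (2 * dE (E i) w * E i 1 - 3 * w 1) % 9 = 0 := h1
    omega
  have g2 : 9 * Wi (E i) w 2 = 2 * dE (E i) w * E i 2 - 3 * w 2 := by
    show 9 * ((2 * dE (E i) w * E i 2 - 3 * w 2) / 9) = _
    have : (2 * dE (E i) w * E i 2 - 3 * w 2) % 9 = 0 := h2
    omega
  have e0 := sq_one (E_cases i 0)
  have e1 := sq_one (E_cases i 1)
  have e2 := sq_one (E_cases i 2)
  have g3 : 3 * dE (E i) (Wi (E i) w) = dE (E i) w := by
    have : 9 * dE (E i) (Wi (E i) w) = 3 * dE (E i) w := by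
      unfold dE at g0 g1 g2 ⊢
      linear_combination (E i 0) * g0 + (E i 1) * g1 + (E i 2) * g2 +
        (2 * (E i 0 * w 0 + E i 1 * w 1 + E i 2 * w 2)) * (e0 + e1 + e2)
    omega
  ext j
  fin_cases j
  · show 2 * dE (E i) (Wi (E i) w) * E i 0 - 3 * Wi (E i) w 0 = w 0
    have : 3 * (2 * dE (E i) (Wi (E i) w) * E i 0 - 3 * Wi (E i) w 0) = 3 * w 0 := by
      linear_combination (2 * E i 0) * g3 - g0
    omega
  · show 2 * dE (E i) (Wi (E i) w) * E i 1 - 3 * Wi (E i) w 1 = w 1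
    have : 3 * (2 * dE (E i) (Wi (E i) w) * E i 1 - 3 * Wi (E i) w 1) = 3 * w 1 := by
      linear_combination (2 * E i 1) * g3 - g1
    omega
  · show 2 * dE (E i) (Wi (E i) w) * E i 2 - 3 * Wi (E i) w 2 = w 2
    have : 3 * (2 * dE (E i) (Wi (E i) w) * E i 2 - 3 * Wi (E i) w 2) = 3 * w 2 := by
      linear_combination (2 * E i 2) * g3 - g2
    omega

theorem Cl_Wm (i : Fin 4) (v : V3) : Cl (E i) (Wm (E i) v) ↔ ¬ 3 ∣ dE (E i) v := by
  have hW0 : Wm (E i) v 0 = 2 * dE (E i) v * E i 0 - 3 * v 0 := rfl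
  have hW1 : Wm (E i) v 1 = 2 * dE (E i) v * E i 1 - 3 * v 1 := rfl
  have hW2 : Wm (E i) v 2 = 2 * dE (E i) v * E i 2 - 3 * v 2 := rfl
  unfold Cl
  rw [hW0, hW1, hW2]
  generalize dE (E i) v = D
  have hD : D % 3 = 0 ∨ D % 3 = 1 ∨ D % 3 = 2 := by omega
  constructor
  · rintro (⟨h, -, -⟩ | ⟨h, -, -⟩)
    · rcases E_cases i 0 with h0 | h0 <;> rw [h0] at h <;> omega
    · rcases E_cases i 0 with h0 | h0 <;> rw [h0] at h <;> omega
  · intro h
    rcases hD with hD | hD | hD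
    · omega
    · right
      refine ⟨?_, ?_, ?_⟩
      · rcases E_cases i 0 with h0 | h0 <;> rw [h0] <;> omega
      · rcases E_cases i 1 with h0 | h0 <;> rw [h0] <;> omega
      · rcases E_cases i 2 with h0 | h0 <;> rw [h0] <;> omega
    · left
      refine ⟨?_, ?_, ?_⟩
      · rcases E_cases i 0 with h0 | h0 <;> rw [h0] <;> omega
      · rcases E_cases i 1 with h0 | h0 <;> rw [h0] <;> omega
      · rcases E_cases i 2 with h0 | h0 <;> rw [h0] <;> omega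

/-- the involution -/
theorem nrm_Rm (i : Fin 4) (v : V3) (h : 3 ∣ dE (E i) v) : Rm (E i) v ⬝ᵥ Rm (E i) v = v ⬝ᵥ v := by
  obtain ⟨k, hk⟩ := h
  have h1 : dE (E i) v / 3 = k := by omega
  have e0 := sq_one (E_cases i 0)
  have e1 := sq_one (E_cases i 1)
  have e2 := sq_one (E_cases i 2)
  rw [dot3, dot3]
  unfold Rm
  rw [h1]
  unfold dE at hk
  simp only [Matrix.cons_val_zero, Matrix.cons_val_one, Matrix.cons_val]
  linear_combination (4 * k ^ 2) * (e0 + e1 + e2) - (4 * k) * hk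

theorem dE_Rm (i : Fin 4) (v : V3) (h : 3 ∣ dE (E i) v) : dE (E i) (Rm (E i) v) = dE (E i) v := by
  obtain ⟨k, hk⟩ := h
  have h1 : dE (E i) v / 3 = k := by omega
  have e0 := sq_one (E_cases i 0)
  have e1 := sq_one (E_cases i 1)
  have e2 := sq_one (E_cases i 2)
  rw [hk]
  unfold Rm
  rw [h1]
  unfold dE at hk ⊢
  simp only [Matrix.cons_val_zero, Matrix.cons_val_one, Matrix.cons_val]
  linear_combination (2 * k) * (e0 + e1 + e2) - hk

theorem Rm_Rm (i : Fin 4) (v : V3) (h : 3 ∣ dE (E i) v) : Rm (E i) (Rm (E i) v) = v := by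
  have h1 := dE_Rm i v h
  have hR0 : Rm (E i) v 0 = 2 * (dE (E i) v / 3) * E i 0 - v 0 := rfl
  have hR1 : Rm (E i) v 1 = 2 * (dE (E i) v / 3) * E i 1 - v 1 := rfl
  have hR2 : Rm (E i) v 2 = 2 * (dE (E i) v / 3) * E i 2 - v 2 := rfl
  ext j
  fin_cases j
  · show 2 * (dE (E i) (Rm (E i) v) / 3) * E i 0 - Rm (E i) v 0 = v 0
    rw [h1, hR0]; ring
  · show 2 * (dE (E i) (Rm (E i) v) / 3) * E i 1 - Rm (E i) v 1 = v 1
    rw [h1, hR1]; ring
  · show 2 * (dE (E i) (Rm (E i) v) / 3) * E i 2 - Rm (E i) v 2 = v 2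
    rw [h1, hR2]; ring

/-! ### orientation -/

theorem ep_congr_neg {v w : V3} (h0 : (w 0 + v 0) % 4 = 0) (h1 : (w 1 + v 1) % 4 = 0)
    (h2 : (w 2 + v 2) % 4 = 0) (a0 : v 0 % 2 = 1) (a1 : v 1 % 2 = 1) (a2 : v 2 % 2 = 1) :
    ep w = - ep v := by
  have b0 : w 0 % 2 = 1 := by omega
  have b1 : w 1 % 2 = 1 := by omega
  have b2 : w 2 % 2 = 1 := by omega
  rw [ep_mul v a0 a1 a2, ep_mul w b0 b1 b2]
  have c0 : (if w 0 % 4 = 1 then (1 : ℤ) else -1) = -(if v 0 % 4 = 1 then 1 else -1) := by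
    split_ifs <;> omega
  have c1 : (if w 1 % 4 = 1 then (1 : ℤ) else -1) = -(if v 1 % 4 = 1 then 1 else -1) := by
    split_ifs <;> omega
  have c2 : (if w 2 % 4 = 1 then (1 : ℤ) else -1) = -(if v 2 % 4 = 1 then 1 else -1) := by
    split_ifs <;> omega
  rw [c0, c1, c2]; ring

theorem ep_congr {v w : V3} (h0 : (w 0 - v 0) % 4 = 0) (h1 : (w 1 - v 1) % 4 = 0)
    (h2 : (w 2 - v 2) % 4 = 0) (a0 : v 0 % 2 = 1) (a1 : v 1 % 2 = 1) (a2 : v 2 % 2 = 1) :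
    ep w = ep v := by
  have b0 : w 0 % 2 = 1 := by omega
  have b1 : w 1 % 2 = 1 := by omega
  have b2 : w 2 % 2 = 1 := by omega
  rw [ep_mul v a0 a1 a2, ep_mul w b0 b1 b2]
  have c0 : (if w 0 % 4 = 1 then (1 : ℤ) else -1) = (if v 0 % 4 = 1 then 1 else -1) := by
    split_ifs <;> omega
  have c1 : (if w 1 % 4 = 1 then (1 : ℤ) else -1) = (if v 1 % 4 = 1 then 1 else -1) := by
    split_ifs <;> omega
  have c2 : (if w 2 % 4 = 1 then (1 : ℤ) else -1) = (if v 2 % 4 = 1 then 1 else -1) := by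
    split_ifs <;> omega
  rw [c0, c1, c2]

theorem dE_odd (i : Fin 4) (v : V3) (a0 : v 0 % 2 = 1) (a1 : v 1 % 2 = 1) (a2 : v 2 % 2 = 1) :
    dE (E i) v % 2 = 1 := by
  unfold dE
  rcases E_cases i 0 with h0 | h0 <;> rcases E_cases i 1 with h1 | h1 <;>
    rcases E_cases i 2 with h2 | h2 <;> rw [h0, h1, h2] <;> omega

theorem ep_Wm (i : Fin 4) (v : V3) (a0 : v 0 % 2 = 1) (a1 : v 1 % 2 = 1) (a2 : v 2 % 2 = 1) :
    ep (Wm (E i) v) = - ep v := by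
  have hD := dE_odd i v a0 a1 a2
  apply ep_congr_neg _ _ _ a0 a1 a2
  · show (2 * dE (E i) v * E i 0 - 3 * v 0 + v 0) % 4 = 0
    rcases E_cases i 0 with h0 | h0 <;> rw [h0] <;> omega
  · show (2 * dE (E i) v * E i 1 - 3 * v 1 + v 1) % 4 = 0
    rcases E_cases i 1 with h0 | h0 <;> rw [h0] <;> omega
  · show (2 * dE (E i) v * E i 2 - 3 * v 2 + v 2) % 4 = 0
    rcases E_cases i 2 with h0 | h0 <;> rw [h0] <;> omega

theorem ep_Rm (i : Fin 4) (v : V3) (a0 : v 0 % 2 = 1) (a1 : v 1 % 2 = 1) (a2 : v 2 % 2 = 1)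
    (h : 3 ∣ dE (E i) v) : ep (Rm (E i) v) = ep v := by
  have hD := dE_odd i v a0 a1 a2
  obtain ⟨k, hk⟩ := h
  have h1 : dE (E i) v / 3 = k := by omega
  have hk2 : k % 2 = 1 := by omega
  apply ep_congr _ _ _ a0 a1 a2
  · show (2 * (dE (E i) v / 3) * E i 0 - v 0 - v 0) % 4 = 0
    rw [h1]
    rcases E_cases i 0 with h0 | h0 <;> rw [h0] <;> omega
  · show (2 * (dE (E i) v / 3) * E i 1 - v 1 - v 1) % 4 = 0
    rw [h1]
    rcases E_cases i 1 with h0 | h0 <;> rw [h0] <;> omega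
  · show (2 * (dE (E i) v / 3) * E i 2 - v 2 - v 2) % 4 = 0
    rw [h1]
    rcases E_cases i 2 with h0 | h0 <;> rw [h0] <;> omega

end Pool.Agent.Y758.ZN
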